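import Mathlib

/-!
# Rankin's method for integers composed of few primes
-/

set_option autoImplicit false

namespace Pool.Agent.L0h94.LT

open Finset

/-- `n ↦ n ^ (-σ)` -/
noncomputable def pw (σ : ℝ) : ℕ →* ℝ where
  toFun n := (n : ℝ) ^ (-σ)
  map_one' := by
    rw [Nat.cast_one]
    exact Real.one_rpow _
  map_mul' m n := by
    rw [Nat.cast_mul]
    exact Real.mul_rpow (Nat.cast_nonneg _) (Nat.cast_nonneg _)

theorem pw_lt {σ : ℝ} (hσ : 0 < σ) {p : ℕ} (hp : p.Prime) : (p : ℝ) ^ (-σ) ≤ (2 : ℝ) ^ (-σ) :=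
  Real.rpow_le_rpow_of_nonpos (by norm_num) (by exact_mod_cast hp.two_le) (by linarith)

theorem two_lt {σ : ℝ} (hσ : 0 < σ) : (2 : ℝ) ^ (-σ) < 1 :=
  Real.rpow_lt_one_of_one_lt_of_neg (by norm_num) (by linarith)

open Classical in
/-- the sum over the integers composed of the primes of `s` -/
theorem sum_le (σ : ℝ) (hσ : 0 < σ) (s : Finset ℕ) (hs : ∀ p ∈ s, p.Prime) (T : Finset ℕ)
    (hT : ∀ n ∈ T, n ∈ Nat.factoredNumbers s) :
    ∑ n ∈ T, (n : ℝ) ^ (-σ) ≤ Real.exp ((∑ p ∈ s, (p : ℝ) ^ (-σ)) / (1 - (2 : ℝ) ^ (-σ))) := by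
  have h2 := two_lt hσ
  have h20 : (0 : ℝ) < (2 : ℝ) ^ (-σ) := Real.rpow_pos_of_pos (by norm_num) _
  have hnorm : ∀ {p : ℕ}, p.Prime → ‖pw σ p‖ < 1 := by
    intro p hp
    have h3 : (0 : ℝ) ≤ (p : ℝ) ^ (-σ) := Real.rpow_nonneg (Nat.cast_nonneg _) _
    show ‖(p : ℝ) ^ (-σ)‖ < 1
    rw [Real.norm_of_nonneg h3]
    exact lt_of_le_of_lt (pw_lt hσ hp) h2
  obtain ⟨h4, h5⟩ :=
    EulerProduct.summable_and_hasSum_factoredNumbers_prod_filter_prime_geometric (f := pw σ) hnorm s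
  have h6 : ∑ n ∈ T, (n : ℝ) ^ (-σ) ≤ ∏ p ∈ s with p.Prime, (1 - pw σ p)⁻¹ := by
    have h7 : ∑ n ∈ T, (n : ℝ) ^ (-σ) =
        ∑ n ∈ T.attach.image (fun n => (⟨n.1, hT n.1 n.2⟩ : Nat.factoredNumbers s)),
          pw σ (n : ℕ) := by
      rw [Finset.sum_image]
      · rw [Finset.sum_attach T (fun n => pw σ n)]
        rfl
      · intro a _ b _ h
        exact Subtype.ext (congrArg (fun n : Nat.factoredNumbers s => (n : ℕ)) h)
    rw [h7]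
    exact sum_le_hasSum _ (fun n _ => Real.rpow_nonneg (Nat.cast_nonneg _) _) h5
  refine h6.trans ?_
  rw [Finset.filter_true_of_mem hs, Finset.sum_div, Real.exp_sum]
  refine Finset.prod_le_prod (fun p hp => ?_) fun p hp => ?_
  · have h8 := hnorm (hs p hp)
    have h9 : pw σ p ≤ ‖pw σ p‖ := Real.le_norm_self _
    exact inv_nonneg.2 (by linarith)
  · have h3 : (0 : ℝ) ≤ (p : ℝ) ^ (-σ) := Real.rpow_nonneg (Nat.cast_nonneg _) _
    have h8 : (p : ℝ) ^ (-σ) ≤ (2 : ℝ) ^ (-σ) := pw_lt hσ (hs p hp)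
    show (1 - (p : ℝ) ^ (-σ))⁻¹ ≤ _
    have h9 : 0 < 1 - (p : ℝ) ^ (-σ) := by linarith
    have h10 : 0 < 1 - (2 : ℝ) ^ (-σ) := by linarith
    have h11 : (1 - (p : ℝ) ^ (-σ))⁻¹ ≤ 1 + (p : ℝ) ^ (-σ) / (1 - (2 : ℝ) ^ (-σ)) := by
      have h12 : (1 - (p : ℝ) ^ (-σ))⁻¹ = 1 + (p : ℝ) ^ (-σ) / (1 - (p : ℝ) ^ (-σ)) := by
        field_simp
        ring
      rw [h12]
      have h13 : (p : ℝ) ^ (-σ) / (1 - (p : ℝ) ^ (-σ)) ≤
          (p : ℝ) ^ (-σ) / (1 - (2 : ℝ) ^ (-σ)) :=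
        div_le_div_of_nonneg_left h3 h10 (by linarith)
      linarith
    refine h11.trans ?_
    have := Real.add_one_le_exp ((p : ℝ) ^ (-σ) / (1 - (2 : ℝ) ^ (-σ)))
    linarith

open Classical in
/-- **Rankin's bound.** -/
theorem rankin (σ M : ℝ) (hσ : 0 < σ) (P : Set ℕ) (t : ℕ) (ht : 1 ≤ t)
    (hM : ∑ p ∈ (Icc 1 t).filter (fun p => p.Prime ∧ p ∈ P), (p : ℝ) ^ (-σ) ≤ M) :
    (((Icc 1 t).filter (fun n => ∀ p : ℕ, p.Prime → p ∣ n → p ∈ P)).card : ℝ) ≤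
      Real.exp (M / (1 - (2 : ℝ) ^ (-σ))) * (t : ℝ) ^ σ := by
  have h2 := two_lt hσ
  have htR : (0 : ℝ) < t := by exact_mod_cast ht
  have h1 := sum_le σ hσ ((Icc 1 t).filter (fun p => p.Prime ∧ p ∈ P))
    (fun p hp => (mem_filter.1 hp).2.1)
    ((Icc 1 t).filter (fun n => ∀ p : ℕ, p.Prime → p ∣ n → p ∈ P)) (by
      intro n hn
      rw [mem_filter, mem_Icc] at hn
      rw [Nat.mem_factoredNumbers']
      intro p hp hpn
      rw [mem_filter, mem_Icc]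
      have h3 := Nat.le_of_dvd (by omega) hpn
      exact ⟨⟨hp.one_lt.le, by omega⟩, hp, hn.2 p hp hpn⟩)
  have h3 : Real.exp ((∑ p ∈ (Icc 1 t).filter (fun p => p.Prime ∧ p ∈ P), (p : ℝ) ^ (-σ)) /
      (1 - (2 : ℝ) ^ (-σ))) ≤ Real.exp (M / (1 - (2 : ℝ) ^ (-σ))) := by
    apply Real.exp_le_exp.2
    exact div_le_div_of_nonneg_right hM (by linarith)
  have h4 : (((Icc 1 t).filter (fun n => ∀ p : ℕ, p.Prime → p ∣ n → p ∈ P)).card : ℝ) *
      (t : ℝ) ^ (-σ) ≤ Real.exp (M / (1 - (2 : ℝ) ^ (-σ))) := by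
    refine le_trans ?_ (h1.trans h3)
    rw [← nsmul_eq_mul, ← Finset.sum_const]
    refine Finset.sum_le_sum fun n hn => ?_
    rw [mem_filter, mem_Icc] at hn
    exact Real.rpow_le_rpow_of_nonpos (by exact_mod_cast hn.1.1) (by exact_mod_cast hn.1.2)
      (by linarith)
  rw [Real.rpow_neg htR.le] at h4
  have h5 : 0 < (t : ℝ) ^ σ := Real.rpow_pos_of_pos htR _
  rwa [← div_eq_mul_inv, div_le_iff₀ h5] at h4

/-- the sum over all integers -/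
theorem sum_all (σ : ℝ) (h0 : 0 < σ) (h1 : σ < 1) (N : ℕ) :
    ∑ n ∈ Icc 1 N, (n : ℝ) ^ (-σ) ≤ (N : ℝ) ^ (1 - σ) / (1 - σ) := by
  have hs : 0 < 1 - σ := by linarith
  induction N with
  | zero =>
    rw [Finset.Icc_eq_empty (by norm_num), Finset.sum_empty]
    positivity
  | succ N ih =>
    rw [Finset.sum_Icc_succ_top (by omega)]
    have hN : (0 : ℝ) < (N : ℝ) + 1 := by positivity
    have h2 := rpow_one_add_le_one_add_mul_self (s := -(1 / ((N : ℝ) + 1))) (p := 1 - σ)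
      (by
        have : 1 / ((N : ℝ) + 1) ≤ 1 := by
          rw [div_le_one hN]
          linarith [Nat.cast_nonneg (α := ℝ) N]
        linarith) hs.le (by linarith)
    have h3 : (1 : ℝ) + -(1 / ((N : ℝ) + 1)) = N / ((N : ℝ) + 1) := by
      field_simp
      ring
    rw [h3, Real.div_rpow (Nat.cast_nonneg _) hN.le] at h2
    have h4 : (0 : ℝ) < ((N : ℝ) + 1) ^ (1 - σ) := Real.rpow_pos_of_pos hN _
    rw [div_le_iff₀ h4] at h2
    have h5 : ((N : ℝ) + 1) ^ (1 - σ) = ((N : ℝ) + 1) * ((N : ℝ) + 1) ^ (-σ) := by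
      rw [sub_eq_add_neg, Real.rpow_add hN, Real.rpow_one]
    have h6 : (1 + (1 - σ) * -(1 / ((N : ℝ) + 1))) * ((N : ℝ) + 1) ^ (1 - σ) =
        ((N : ℝ) + 1) ^ (1 - σ) - (1 - σ) * ((N : ℝ) + 1) ^ (-σ) := by
      have e1 : (1 + (1 - σ) * -(1 / ((N : ℝ) + 1))) * ((N : ℝ) + 1) ^ (1 - σ) =
          ((N : ℝ) + 1) ^ (1 - σ) - (1 - σ) * ((1 / ((N : ℝ) + 1)) * ((N : ℝ) + 1) ^ (1 - σ)) := by
        ring
      rw [e1]
      nth_rewrite 2 [h5]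
      congr 2
      field_simp
    rw [h6] at h2
    push_cast
    rw [le_div_iff₀ hs] at ih ⊢
    nlinarith

end Pool.Agent.L0h94.LT
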