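import Pool.Agent.L0h94.LT.Thin
import Pool.Agent.L0h94.LT.Rank

/-!
# Lehmer numbers with all prime factors in a given set
-/

set_option autoImplicit false

namespace Pool.Agent.L0h94.LT

open Finset
open Pool.Agent.H95R2.Leh

/-- a bound for powers with logarithms -/
theorem log_bound (σ η : ℝ) (h0 : 0 ≤ σ) (h1 : σ ≤ 1) (hη : 0 < η) : ∃ C : ℝ, 0 < C ∧
    ∀ x : ℝ, 1 ≤ x → ((x + 1) * Real.log (x + 1) ^ 3) ^ (σ / 2) ≤ C * x ^ (σ / 2 + η) := by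
  obtain ⟨ν, hν⟩ : ∃ ν : ℝ, ν = 2 * η / 3 := ⟨_, rfl⟩
  have hν0 : 0 < ν := by rw [hν]; positivity
  refine ⟨((2 : ℝ) ^ (1 + 2 * η) / ν ^ 3) ^ (σ / 2), by positivity, fun x hx => ?_⟩
  have hx1 : 0 < x + 1 := by linarith
  have hlog : 0 ≤ Real.log (x + 1) := Real.log_nonneg (by linarith)
  have k1 : Real.log (x + 1) ≤ (x + 1) ^ ν / ν := Real.log_le_rpow_div hx1.le hν0
  have k2 : Real.log (x + 1) ^ 3 ≤ ((x + 1) ^ ν / ν) ^ 3 := pow_le_pow_left₀ hlog k1 3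
  have k3 : ((x + 1) ^ ν / ν) ^ 3 = (x + 1) ^ (2 * η) / ν ^ 3 := by
    rw [div_pow, ← Real.rpow_natCast ((x + 1) ^ ν) 3, ← Real.rpow_mul hx1.le]
    congr 2
    rw [hν]
    push_cast
    ring
  have k4 : (x + 1) * Real.log (x + 1) ^ 3 ≤ (2 * x) ^ (1 + 2 * η) / ν ^ 3 := by
    calc (x + 1) * Real.log (x + 1) ^ 3 ≤ (x + 1) * ((x + 1) ^ (2 * η) / ν ^ 3) := by
          rw [← k3]
          exact mul_le_mul_of_nonneg_left k2 hx1.le
      _ = (x + 1) ^ (1 + 2 * η) / ν ^ 3 := by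
          rw [Real.rpow_add hx1, Real.rpow_one]
          ring
      _ ≤ (2 * x) ^ (1 + 2 * η) / ν ^ 3 := by
          refine div_le_div_of_nonneg_right ?_ (by positivity)
          exact Real.rpow_le_rpow hx1.le (by linarith) (by positivity)
  have k5 : ((x + 1) * Real.log (x + 1) ^ 3) ^ (σ / 2) ≤
      ((2 * x) ^ (1 + 2 * η) / ν ^ 3) ^ (σ / 2) :=
    Real.rpow_le_rpow (by positivity) k4 (by linarith)
  refine k5.trans ?_
  have k6 : (2 * x) ^ (1 + 2 * η) / ν ^ 3 = ((2 : ℝ) ^ (1 + 2 * η) / ν ^ 3) * x ^ (1 + 2 * η) := by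
    rw [Real.mul_rpow (by norm_num) (by linarith)]
    ring
  rw [k6, Real.mul_rpow (by positivity) (by positivity), ← Real.rpow_mul (by linarith)]
  refine mul_le_mul_of_nonneg_left ?_ (by positivity)
  refine Real.rpow_le_rpow_of_exponent_le hx ?_
  nlinarith

open Classical in
/-- the sum over the primes of a thin set -/
theorem dyadic (P : Set ℕ) (C₀ α δ : ℝ) (hC : 0 ≤ C₀) (hδ : 0 < δ) (hα : 0 ≤ α)
    (hP : ∀ t : ℕ, 1 ≤ t →
      (((Icc 1 t).filter (fun p => p.Prime ∧ p ∈ P)).card : ℝ) ≤ C₀ * (t : ℝ) ^ α) (t : ℕ) :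
    ∑ p ∈ (Icc 1 t).filter (fun p => p.Prime ∧ p ∈ P), (p : ℝ) ^ (-(α + δ)) ≤
      C₀ * (2 : ℝ) ^ α / (1 - (2 : ℝ) ^ (-δ)) := by
  obtain ⟨A, hA⟩ : ∃ A : Finset ℕ, A = (Icc 1 t).filter (fun p => p.Prime ∧ p ∈ P) := ⟨_, rfl⟩
  rw [← hA]
  have hmaps : ∀ p ∈ A, Nat.log 2 p ∈ range (Nat.log 2 t + 1) := by
    intro p hp
    rw [hA, mem_filter, mem_Icc] at hp
    rw [mem_range, Nat.lt_succ_iff]
    exact Nat.log_mono_right hp.1.2
  rw [← Finset.sum_fiberwise_of_maps_to hmaps]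
  obtain ⟨r, hr⟩ : ∃ r : ℝ, r = (2 : ℝ) ^ (-δ) := ⟨_, rfl⟩
  have hr0 : 0 < r := by rw [hr]; positivity
  have hr1 : r < 1 := by rw [hr]; exact two_lt hδ
  have hterm : ∀ j ∈ range (Nat.log 2 t + 1),
      ∑ p ∈ A with Nat.log 2 p = j, (p : ℝ) ^ (-(α + δ)) ≤ (C₀ * (2 : ℝ) ^ α) * r ^ j := by
    intro j _
    have h1 : ∀ p ∈ A.filter (fun p => Nat.log 2 p = j),
        (p : ℝ) ^ (-(α + δ)) ≤ ((2 : ℝ) ^ j) ^ (-(α + δ)) := by
      intro p hp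
      rw [mem_filter, hA, mem_filter, mem_Icc] at hp
      have h2 : 2 ^ j ≤ p := by
        have := Nat.pow_log_le_self 2 (x := p) (by omega)
        rw [hp.2] at this
        exact this
      exact Real.rpow_le_rpow_of_nonpos (by positivity) (by exact_mod_cast h2) (by linarith)
    have h3 : ((A.filter (fun p => Nat.log 2 p = j)).card : ℝ) ≤ C₀ * ((2 : ℝ) ^ (j + 1)) ^ α := by
      have h4 := hP (2 ^ (j + 1)) Nat.one_le_two_pow
      have h5 : (A.filter (fun p => Nat.log 2 p = j)).card ≤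
          ((Icc 1 (2 ^ (j + 1))).filter (fun p => p.Prime ∧ p ∈ P)).card := by
        apply card_le_card
        intro p hp
        rw [mem_filter, hA, mem_filter, mem_Icc] at hp
        rw [mem_filter, mem_Icc]
        have h6 := Nat.lt_pow_succ_log_self (b := 2) (by norm_num) p
        rw [hp.2] at h6
        exact ⟨⟨hp.1.1.1, h6.le⟩, hp.1.2⟩
      have h7 : ((A.filter (fun p => Nat.log 2 p = j)).card : ℝ) ≤
          (((Icc 1 (2 ^ (j + 1))).filter (fun p => p.Prime ∧ p ∈ P)).card : ℝ) := by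
        exact_mod_cast h5
      refine h7.trans (h4.trans (le_of_eq ?_))
      push_cast
      rfl
    have h8 := Finset.sum_le_card_nsmul _ _ _ h1
    rw [nsmul_eq_mul] at h8
    refine h8.trans ?_
    have h9 : (0 : ℝ) ≤ ((2 : ℝ) ^ j) ^ (-(α + δ)) := by positivity
    refine (mul_le_mul_of_nonneg_right h3 h9).trans (le_of_eq ?_)
    have h10 : ((2 : ℝ) ^ j) ^ (-(α + δ)) = ((2 : ℝ) ^ j) ^ (-α) * ((2 : ℝ) ^ j) ^ (-δ) := by
      rw [← Real.rpow_add (by positivity)]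
      congr 1
      ring
    have h11 : ((2 : ℝ) ^ j) ^ (-δ) = r ^ j := by
      rw [hr, ← Real.rpow_natCast, ← Real.rpow_natCast, ← Real.rpow_mul (by norm_num),
        ← Real.rpow_mul (by norm_num), mul_comm]
    have h12 : ((2 : ℝ) ^ (j + 1)) ^ α = ((2 : ℝ) ^ j) ^ α * (2 : ℝ) ^ α := by
      rw [pow_succ, Real.mul_rpow (by positivity) (by norm_num)]
    have h13 : ((2 : ℝ) ^ j) ^ α * ((2 : ℝ) ^ j) ^ (-α) = 1 := by
      rw [← Real.rpow_add (by positivity), add_neg_cancel, Real.rpow_zero]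
    rw [h10, h11, h12]
    calc C₀ * (((2 : ℝ) ^ j) ^ α * (2 : ℝ) ^ α) * (((2 : ℝ) ^ j) ^ (-α) * r ^ j) =
        C₀ * (2 : ℝ) ^ α * (((2 : ℝ) ^ j) ^ α * ((2 : ℝ) ^ j) ^ (-α)) * r ^ j := by ring
      _ = _ := by rw [h13, mul_one]
  refine (Finset.sum_le_sum hterm).trans ?_
  rw [← Finset.mul_sum, ← hr, le_div_iff₀ (by linarith), mul_assoc, geom_sum_mul_neg]
  have h14 : (0 : ℝ) ≤ r ^ (Nat.log 2 t + 1) := by positivity
  have h15 : (0 : ℝ) ≤ C₀ * (2 : ℝ) ^ α := by positivity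
  nlinarith

open Classical in
/-- the case of the whole interval -/
theorem whole (P : Set ℕ) (σ B : ℝ) (h0 : 0 ≤ σ) (h1 : σ ≤ 1)
    (hB : ∀ t : ℕ, 1 ≤ t →
      (((Icc 1 t).filter (fun n => ∀ p : ℕ, p.Prime → p ∣ n → p ∈ P)).card : ℝ) ≤ B * (t : ℝ) ^ σ)
    (x : ℕ) (hx : 1 ≤ x) :
    (((Icc 1 x).filter (fun n => Leh n ∧ ∀ p : ℕ, p.Prime → p ∣ n → p ∈ P)).card : ℝ) ≤
      4112 * B * (((x : ℝ) + 1) * Real.log ((x : ℝ) + 1) ^ 3) ^ (σ / 2) := by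
  have key := thin_log {n : ℕ | ∀ p : ℕ, p.Prime → p ∣ n → p ∈ P}
    (fun n hn d hd p hp hpd => hn p hp (hpd.trans hd)) σ B h0 h1
    (fun t ht => hB t ht) 1 0 le_rfl (by rw [Nat.cast_one]; exact isCoprime_one_right)
    (by rw [Nat.cast_one]; exact isCoprime_one_right) 0 x (by omega)
  have e1 : (Ioc 0 (0 + x)).filter (fun n => n ∈ {n : ℕ | ∀ p : ℕ, p.Prime → p ∣ n → p ∈ P} ∧
      Leh n ∧ (n : ℤ) ≡ 0 [ZMOD (1 : ℕ)]) =
      (Icc 1 x).filter (fun n => Leh n ∧ ∀ p : ℕ, p.Prime → p ∣ n → p ∈ P) := by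
    ext n
    rw [mem_filter, mem_filter, mem_Ioc, mem_Icc, Set.mem_ofPred_eq]
    constructor
    · rintro ⟨⟨h2, h3⟩, h4, h5, -⟩
      exact ⟨⟨by omega, by omega⟩, h5, h4⟩
    · rintro ⟨⟨h2, h3⟩, h5, h4⟩
      refine ⟨⟨by omega, by omega⟩, h4, h5, ?_⟩
      rw [Nat.cast_one]
      exact Int.modEq_one
  rw [e1] at key
  refine key.trans (le_of_eq ?_)
  rw [Nat.cast_one, div_one, Nat.cast_zero, zero_add]

open Classical in
/-- **All prime factors in a thin set of primes.** -/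
theorem primes (P : Set ℕ) (C₀ α ε : ℝ) (hα : 0 ≤ α) (hε : 0 < ε)
    (hP : ∀ t : ℕ, 1 ≤ t →
      (((Icc 1 t).filter (fun p => p.Prime ∧ p ∈ P)).card : ℝ) ≤ C₀ * (t : ℝ) ^ α) :
    ∃ C : ℝ, 0 < C ∧ ∀ x : ℕ, 1 ≤ x →
      (((Icc 1 x).filter (fun n => Leh n ∧ ∀ p : ℕ, p.Prime → p ∣ n → p ∈ P)).card : ℝ) ≤
        C * (x : ℝ) ^ (α / 2 + ε) := by
  have hC : 0 ≤ C₀ := by
    have h2 := hP 1 le_rfl
    rw [Nat.cast_one, Real.one_rpow, mul_one] at h2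
    exact le_trans (Nat.cast_nonneg _) h2
  obtain ⟨σ, B, hσ0, hσ1, hσ, hB0, hB⟩ : ∃ σ B : ℝ, 0 ≤ σ ∧ σ ≤ 1 ∧ σ ≤ α + ε ∧ 0 < B ∧
      ∀ t : ℕ, 1 ≤ t →
        (((Icc 1 t).filter (fun n => ∀ p : ℕ, p.Prime → p ∣ n → p ∈ P)).card : ℝ) ≤
          B * (t : ℝ) ^ σ := by
    rcases le_or_gt (α + ε) 1 with h | h
    · refine ⟨α + ε, Real.exp (C₀ * (2 : ℝ) ^ α / (1 - (2 : ℝ) ^ (-ε)) /
        (1 - (2 : ℝ) ^ (-(α + ε)))), by linarith, h, le_rfl, Real.exp_pos _, fun t ht => ?_⟩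
      exact rankin (α + ε) _ (by linarith) P t ht (dyadic P C₀ α ε hC hε hα hP t)
    · refine ⟨1, 1, zero_le_one, le_rfl, h.le, zero_lt_one, fun t ht => ?_⟩
      rw [one_mul, Real.rpow_one]
      have h3 : ((Icc 1 t).filter (fun n => ∀ p : ℕ, p.Prime → p ∣ n → p ∈ P)).card ≤ t := by
        refine (card_filter_le _ _).trans ?_
        rw [Nat.card_Icc]
        omega
      exact_mod_cast h3
  obtain ⟨C, hC0, hlog⟩ := log_bound σ (ε / 2) hσ0 hσ1 (by linarith)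
  refine ⟨4112 * B * C, by positivity, fun x hx => ?_⟩
  have hxR : (1 : ℝ) ≤ x := by exact_mod_cast hx
  have h4 := hlog x hxR
  calc (((Icc 1 x).filter (fun n => Leh n ∧ ∀ p : ℕ, p.Prime → p ∣ n → p ∈ P)).card : ℝ) ≤
      4112 * B * (((x : ℝ) + 1) * Real.log ((x : ℝ) + 1) ^ 3) ^ (σ / 2) :=
        whole P σ B hσ0 hσ1 hB x hx
    _ ≤ 4112 * B * (C * (x : ℝ) ^ (σ / 2 + ε / 2)) := mul_le_mul_of_nonneg_left h4 (by positivity)
    _ = 4112 * B * C * (x : ℝ) ^ (σ / 2 + ε / 2) := by ring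
    _ ≤ 4112 * B * C * (x : ℝ) ^ (α / 2 + ε) := by
        refine mul_le_mul_of_nonneg_left ?_ (by positivity)
        exact Real.rpow_le_rpow_of_exponent_le hxR (by linarith)

/-- a lower power is bounded by a small multiple -/
theorem low_pow (c η θ : ℝ) (hc : 0 ≤ c) (hη : 0 < η) (h0 : 0 < θ) (h1 : θ < 1) :
    ∃ D : ℝ, ∀ L : ℝ, 0 ≤ L → c * L ^ (1 - θ) ≤ η * L + D := by
  obtain ⟨L₀, hL₀⟩ : ∃ L₀ : ℝ, L₀ = (c / η) ^ (1 / θ) := ⟨_, rfl⟩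
  have hL0 : 0 ≤ L₀ := by rw [hL₀]; positivity
  refine ⟨c * L₀ ^ (1 - θ), fun L hL => ?_⟩
  rcases le_or_gt L L₀ with h | h
  · have h2 : L ^ (1 - θ) ≤ L₀ ^ (1 - θ) := Real.rpow_le_rpow hL h (by linarith)
    have h3 := mul_le_mul_of_nonneg_left h2 hc
    nlinarith
  · have hLp : 0 < L := lt_of_le_of_lt hL0 h
    have h2 : c / η ≤ L ^ θ := by
      have h3 : L₀ ^ θ ≤ L ^ θ := Real.rpow_le_rpow hL0 h.le h0.le
      rw [hL₀, ← Real.rpow_mul (by positivity), one_div, inv_mul_cancel₀ h0.ne', Real.rpow_one] at h3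
      exact h3
    rw [div_le_iff₀ hη] at h2
    have h4 : L ^ θ * L ^ (1 - θ) = L := by
      rw [← Real.rpow_add hLp, add_sub_cancel, Real.rpow_one]
    have h5 : 0 ≤ L ^ (1 - θ) := by positivity
    have h6 : c * L ^ (1 - θ) ≤ η * L := by
      calc c * L ^ (1 - θ) ≤ (L ^ θ * η) * L ^ (1 - θ) := mul_le_mul_of_nonneg_right h2 h5
        _ = η * (L ^ θ * L ^ (1 - θ)) := by ring
        _ = η * L := by rw [h4]
    have h7 : 0 ≤ c * L₀ ^ (1 - θ) := by positivity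
    linarith

open Classical in
/-- **Smooth Lehmer numbers.** -/
theorem smooth (κ ε : ℝ) (hκ : 1 ≤ κ) (hε : 0 < ε) : ∃ C : ℝ, 0 < C ∧ ∀ x : ℕ, 1 ≤ x →
    (((Icc 1 x).filter (fun n => Leh n ∧
      ∀ p : ℕ, p.Prime → p ∣ n → (p : ℝ) ≤ Real.log x ^ κ)).card : ℝ) ≤
        C * (x : ℝ) ^ ((1 - 1 / κ) / 2 + ε) := by
  obtain ⟨δ, hδ⟩ : ∃ δ : ℝ, δ = min ε (1 / (2 * κ)) := ⟨_, rfl⟩
  have hκ0 : 0 < κ := by linarith
  have hδ0 : 0 < δ := by rw [hδ]; exact lt_min hε (by positivity)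
  have hδε : δ ≤ ε := by rw [hδ]; exact min_le_left _ _
  have hδκ : δ ≤ 1 / (2 * κ) := by rw [hδ]; exact min_le_right _ _
  have hκδ : κ * δ ≤ 1 / 2 := by
    have h2 := mul_le_mul_of_nonneg_left hδκ hκ0.le
    have h3 : κ * (1 / (2 * κ)) = 1 / 2 := by field_simp
    linarith
  have hκinv : 1 / κ ≤ 1 := by rw [div_le_one hκ0]; exact hκ
  obtain ⟨σ, hσ⟩ : ∃ σ : ℝ, σ = 1 - 1 / κ + δ := ⟨_, rfl⟩
  have hσ0 : 0 < σ := by rw [hσ]; linarith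
  have hσκ : κ * (1 - σ) = 1 - κ * δ := by
    rw [hσ]
    field_simp
    ring
  have hσ1 : σ < 1 := by
    by_contra h
    push Not at h
    have h2 : κ * (1 - σ) ≤ 0 := mul_nonpos_of_nonneg_of_nonpos hκ0.le (by linarith)
    linarith
  have h2σ := two_lt hσ0
  obtain ⟨c, hc⟩ : ∃ c : ℝ, c = 1 / (1 - σ) / (1 - (2 : ℝ) ^ (-σ)) := ⟨_, rfl⟩
  have hc0 : 0 ≤ c := by
    rw [hc]
    exact div_nonneg (div_nonneg zero_le_one (by linarith)) (by linarith)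
  obtain ⟨D, hD⟩ := low_pow c (ε / 4) (κ * δ) hc0 (by linarith) (by positivity) (by linarith)
  obtain ⟨C, hC0, hlog⟩ := log_bound σ (ε / 4) hσ0.le hσ1.le (by linarith)
  refine ⟨4112 * Real.exp D * C, by positivity, fun x hx => ?_⟩
  have hxR : (1 : ℝ) ≤ x := by exact_mod_cast hx
  have hx0 : (0 : ℝ) < x := by linarith
  have hL : 0 ≤ Real.log x := Real.log_nonneg hxR
  obtain ⟨N, hN⟩ : ∃ N : ℕ, N = ⌊Real.log x ^ κ⌋₊ := ⟨_, rfl⟩
  have hNle : (N : ℝ) ≤ Real.log x ^ κ := by rw [hN]; exact Nat.floor_le (by positivity)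
  have hM : ∀ t : ℕ, ∑ p ∈ (Icc 1 t).filter
      (fun p => p.Prime ∧ p ∈ {p : ℕ | (p : ℝ) ≤ Real.log x ^ κ}), (p : ℝ) ^ (-σ) ≤
      Real.log x ^ (1 - κ * δ) / (1 - σ) := by
    intro t
    have h3 : ∑ p ∈ (Icc 1 t).filter
        (fun p => p.Prime ∧ p ∈ {p : ℕ | (p : ℝ) ≤ Real.log x ^ κ}), (p : ℝ) ^ (-σ) ≤
        ∑ n ∈ Icc 1 N, (n : ℝ) ^ (-σ) := by
      refine Finset.sum_le_sum_of_subset_of_nonneg ?_ fun n _ _ => by positivity
      intro p hp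
      rw [mem_filter, mem_Icc, Set.mem_ofPred_eq] at hp
      rw [mem_Icc, hN]
      exact ⟨hp.1.1, Nat.le_floor hp.2.2⟩
    refine h3.trans ((sum_all σ hσ0 hσ1 N).trans ?_)
    refine div_le_div_of_nonneg_right ?_ (by linarith)
    refine (Real.rpow_le_rpow (Nat.cast_nonneg _) hNle (by linarith)).trans (le_of_eq ?_)
    rw [← Real.rpow_mul hL, hσκ]
  have hw := whole {p : ℕ | (p : ℝ) ≤ Real.log x ^ κ} σ
    (Real.exp (Real.log x ^ (1 - κ * δ) / (1 - σ) / (1 - (2 : ℝ) ^ (-σ)))) hσ0.le hσ1.le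
    (fun t ht => rankin σ _ hσ0 _ t ht (hM t)) x hx
  have hexp : Real.exp (Real.log x ^ (1 - κ * δ) / (1 - σ) / (1 - (2 : ℝ) ^ (-σ))) ≤
      Real.exp D * (x : ℝ) ^ (ε / 4) := by
    have h5 := hD (Real.log x) hL
    have h6 : Real.log x ^ (1 - κ * δ) / (1 - σ) / (1 - (2 : ℝ) ^ (-σ)) =
        c * Real.log x ^ (1 - κ * δ) := by
      rw [hc]
      ring
    rw [h6, Real.rpow_def_of_pos hx0, ← Real.exp_add]
    apply Real.exp_le_exp.2
    linarith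
  have h7 := hlog x hxR
  refine hw.trans ?_
  calc 4112 * Real.exp (Real.log x ^ (1 - κ * δ) / (1 - σ) / (1 - (2 : ℝ) ^ (-σ))) *
        (((x : ℝ) + 1) * Real.log ((x : ℝ) + 1) ^ 3) ^ (σ / 2) ≤
      4112 * (Real.exp D * (x : ℝ) ^ (ε / 4)) * (C * (x : ℝ) ^ (σ / 2 + ε / 4)) := by
        have hl : 0 ≤ Real.log ((x : ℝ) + 1) := Real.log_nonneg (by linarith)
        refine mul_le_mul ?_ h7 (Real.rpow_nonneg (by positivity) _) (by positivity)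
        exact mul_le_mul_of_nonneg_left hexp (by norm_num)
    _ = 4112 * Real.exp D * C * ((x : ℝ) ^ (ε / 4) * (x : ℝ) ^ (σ / 2 + ε / 4)) := by ring
    _ = 4112 * Real.exp D * C * (x : ℝ) ^ (ε / 4 + (σ / 2 + ε / 4)) := by
        rw [← Real.rpow_add hx0]
    _ ≤ 4112 * Real.exp D * C * (x : ℝ) ^ ((1 - 1 / κ) / 2 + ε) := by
        refine mul_le_mul_of_nonneg_left ?_ (by positivity)
        refine Real.rpow_le_rpow_of_exponent_le hxR ?_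
        rw [hσ]
        linarith

end Pool.Agent.L0h94.LT
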