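import Pool.Agent.Y928.LS.Short

/-!
# Lehmer numbers in divisor-closed sets
-/

set_option autoImplicit false

namespace Pool.Agent.L0h94.LT

open Finset
open Pool.Agent.H95R2.Leh Pool.Agent.Y928.LS

open Classical in
/-- Lehmer numbers divisible by `e` in a class modulo `q` and in `(x, x + y]` -/
theorem multiples_class (x y e q : ℕ) (a : ℤ) (he : 1 ≤ e) (hq : 1 ≤ q) (h0 : IsCoprime a (q : ℤ))
    (h1 : IsCoprime (a - 1) (q : ℤ)) :
    (((Ioc x (x + y)).filter (fun n => (Leh n ∧ (n : ℤ) ≡ a [ZMOD q]) ∧ e ∣ n)).card : ℝ) ≤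
      ((y : ℝ) / q) / (e * Nat.totient e) + 1 := by
  by_cases hem : ((Ioc x (x + y)).filter (fun n => (Leh n ∧ (n : ℤ) ≡ a [ZMOD q]) ∧ e ∣ n)) = ∅
  · rw [hem]
    simp only [Finset.card_empty, Nat.cast_zero]
    positivity
  · obtain ⟨n0, hn0⟩ := Finset.nonempty_iff_ne_empty.mpr hem
    obtain ⟨_, ⟨hl0, ha0⟩, hd0⟩ := Finset.mem_filter.mp hn0
    have hcop : Nat.Coprime e (Nat.totient e) :=
      Nat.Coprime.coprime_dvd_left hd0 (Nat.Coprime.coprime_dvd_right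
        (Nat.totient_dvd_of_dvd hd0) (leh_basic hl0).2.2)
    have c1 : IsCoprime (n0 : ℤ) (q : ℤ) := by
      obtain ⟨k, hk⟩ := ha0.symm.dvd
      have e1 : (n0 : ℤ) = a + q * k := by linarith
      rw [e1]
      exact (IsCoprime.add_mul_left_left h0 k)
    have c2 : IsCoprime ((n0 : ℤ) - 1) (q : ℤ) := by
      obtain ⟨k, hk⟩ := ha0.symm.dvd
      have e1 : (n0 : ℤ) - 1 = (a - 1) + q * k := by linarith
      rw [e1]
      exact (IsCoprime.add_mul_left_left h1 k)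
    have d1 : Nat.Coprime e q := by
      have : Nat.Coprime n0 q := Nat.isCoprime_iff_coprime.1 c1
      exact Nat.Coprime.coprime_dvd_left hd0 this
    have d2 : Nat.Coprime (Nat.totient e) q := by
      have hn1 : 1 ≤ n0 := hl0.1.le
      have h2 : Nat.Coprime (n0 - 1) q := by
        rw [← Nat.isCoprime_iff_coprime]
        push_cast [Nat.cast_sub hn1]
        exact c2
      exact Nat.Coprime.coprime_dvd_left ((Nat.totient_dvd_of_dvd hd0).trans hl0.2.2) h2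
    have hcop2 : Nat.Coprime (e * Nat.totient e) q := Nat.Coprime.mul_left d1 d2
    have htp : 0 < Nat.totient e := Nat.totient_pos.mpr (by omega)
    have hM : 0 < e * Nat.totient e * q := Nat.mul_pos (Nat.mul_pos (by omega) htp) (by omega)
    have hmod : ∀ n ∈ (Ioc x (x + y)).filter (fun n => (Leh n ∧ (n : ℤ) ≡ a [ZMOD q]) ∧ e ∣ n),
        n ≡ 0 [MOD e] ∧ n ≡ 1 [MOD (Nat.totient e)] := by
      intro n hn
      obtain ⟨h1, ⟨hl, -⟩, hd⟩ := Finset.mem_filter.mp hn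
      refine ⟨(Nat.modEq_zero_iff_dvd).mpr hd, ?_⟩
      have h2 : Nat.totient e ∣ n - 1 := (Nat.totient_dvd_of_dvd hd).trans hl.2.2
      exact ((Nat.modEq_iff_dvd' (by have := (Finset.mem_Ioc.mp h1).1; omega)).mpr h2).symm
    have hmq : ∀ n ∈ (Ioc x (x + y)).filter (fun n => (Leh n ∧ (n : ℤ) ≡ a [ZMOD q]) ∧ e ∣ n),
        ∀ n' ∈ (Ioc x (x + y)).filter (fun n => (Leh n ∧ (n : ℤ) ≡ a [ZMOD q]) ∧ e ∣ n),
        n ≡ n' [MOD q] := by
      intro n hn n' hn'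
      have k1 := (Finset.mem_filter.mp hn).2.1.2
      have k2 := (Finset.mem_filter.mp hn').2.1.2
      exact Int.natCast_modEq_iff.1 (k1.trans k2.symm)
    have h := card_short (e * Nat.totient e * q) x y hM
      ((Ioc x (x + y)).filter (fun n => (Leh n ∧ (n : ℤ) ≡ a [ZMOD q]) ∧ e ∣ n))
      (fun n hn => Finset.mem_Ioc.mp (Finset.mem_filter.mp hn).1)
      (fun n hn n' hn' => (Nat.modEq_and_modEq_iff_modEq_mul hcop2).mp
        ⟨(Nat.modEq_and_modEq_iff_modEq_mul hcop).mp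
        ⟨(hmod n hn).1.trans (hmod n' hn').1.symm, (hmod n hn).2.trans (hmod n' hn').2.symm⟩,
        hmq n hn n' hn'⟩)
    have h2 : ((y / (e * Nat.totient e * q) : ℕ) : ℝ) ≤ (y : ℝ) / ((e * Nat.totient e * q : ℕ) : ℝ) :=
      Nat.cast_div_le
    have h3 : (((Ioc x (x + y)).filter
        (fun n => (Leh n ∧ (n : ℤ) ≡ a [ZMOD q]) ∧ e ∣ n)).card : ℝ) ≤
        ((y / (e * Nat.totient e * q) + 1 : ℕ) : ℝ) := by exact_mod_cast h
    have h4 : ((y : ℝ) / q) / (e * Nat.totient e) = (y : ℝ) / ((e * Nat.totient e * q : ℕ) : ℝ) := by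
      push_cast
      rw [div_div]
      ring
    push_cast at h3
    rw [h4]
    linarith

open Classical in
/-- Lehmer numbers of a divisor-closed set in a class and in a short interval. -/
theorem thin (S : Set ℕ) (hS : ∀ n ∈ S, ∀ d : ℕ, d ∣ n → d ∈ S) (α B : ℝ) (hα : 0 ≤ α)
    (hB : ∀ t : ℕ, 1 ≤ t → (((Icc 1 t).filter (fun n => n ∈ S)).card : ℝ) ≤ B * (t : ℝ) ^ α)
    (q : ℕ) (a : ℤ) (hq : 1 ≤ q) (h0 : IsCoprime a (q : ℤ)) (h1 : IsCoprime (a - 1) (q : ℤ))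
    (x y K : ℕ) (hK : 1 ≤ K) :
    (((Ioc x (x + y)).filter (fun n => (n ∈ S ∧ Leh n ∧ (n : ℤ) ≡ a [ZMOD q]) ∧
      n.primeFactors.card ≤ K)).card : ℝ) ≤
      514 * B * (((y : ℝ) / q + 1) * (K : ℝ) ^ 3) ^ (α / 2) := by
  obtain ⟨w, hw⟩ : ∃ w : ℝ, w = (y : ℝ) / q + 1 := ⟨_, rfl⟩
  have hyR : (1 : ℝ) ≤ w := by
    rw [hw]
    have : (0 : ℝ) ≤ (y : ℝ) / q := by positivity
    linarith
  rw [← hw]
  have hKR : (1 : ℝ) ≤ K := by exact_mod_cast hK
  have hK3 : (1 : ℝ) ≤ (K : ℝ) ^ 3 := one_le_pow₀ hKR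
  have hw1 : (1 : ℝ) ≤ w * (K : ℝ) ^ 3 := by nlinarith
  obtain ⟨z, hz⟩ : ∃ z : ℝ, z = Real.sqrt (w * (K : ℝ) ^ 3) := ⟨_, rfl⟩
  have hz1 : 1 ≤ z := by
    rw [hz]
    exact Real.le_sqrt_of_sq_le (by nlinarith)
  have hzz : z * z = w * (K : ℝ) ^ 3 := by rw [hz]; exact Real.mul_self_sqrt (by positivity)
  have hzα : (w * (K : ℝ) ^ 3) ^ (α / 2) = z ^ α := by
    rw [← hzz, ← pow_two, ← Real.rpow_natCast, ← Real.rpow_mul (by linarith)]
    congr 1
    push_cast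
    ring
  obtain ⟨Z, hZ⟩ : ∃ Z : ℕ, Z = ⌊z⌋₊ := ⟨_, rfl⟩
  have hZz : (Z : ℝ) ≤ z := by rw [hZ]; exact Nat.floor_le (by linarith)
  have hZ1 : 1 ≤ Z := by rw [hZ]; exact Nat.le_floor (by exact_mod_cast hz1)
  have hSZ : (((Icc 1 Z).filter (fun n => n ∈ S)).card : ℝ) ≤ B * z ^ α := by
    have h1 := hB Z hZ1
    have hB0 : 0 ≤ B := by
      have h2 := hB 1 le_rfl
      rw [Nat.cast_one, Real.one_rpow, mul_one] at h2
      exact le_trans (Nat.cast_nonneg _) h2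
    refine h1.trans (mul_le_mul_of_nonneg_left ?_ hB0)
    exact Real.rpow_le_rpow (Nat.cast_nonneg _) hZz hα
  obtain ⟨D, hD⟩ : ∃ D : Finset ℕ, D = (Icc 1 Z).filter (fun d : ℕ => d ∈ S ∧
    (z / (16 * K) < (d : ℝ) ∧ d.primeFactors.card ≤ K)) := ⟨_, rfl⟩
  have hDS : (D.card : ℝ) ≤ B * z ^ α := by
    refine le_trans ?_ hSZ
    have : D.card ≤ ((Icc 1 Z).filter (fun n => n ∈ S)).card := by
      rw [hD]
      apply card_le_card
      intro d hd
      rw [mem_filter] at hd ⊢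
      exact ⟨hd.1, hd.2.1⟩
    exact_mod_cast this
  -- the covering
  have hcov : (Ioc x (x + y)).filter (fun n => (n ∈ S ∧ Leh n ∧ (n : ℤ) ≡ a [ZMOD q]) ∧
      n.primeFactors.card ≤ K) ⊆
      (Icc 1 Z).filter (fun n => n ∈ S) ∪
        D.biUnion (fun d => (Ioc x (x + y)).filter
          (fun n => (Leh n ∧ (n : ℤ) ≡ a [ZMOD q]) ∧ d ∣ n)) := by
    intro n hn
    obtain ⟨h1, ⟨h0, h2, h2'⟩, h3⟩ := mem_filter.mp hn
    rw [mem_union]
    by_cases hnz : n ≤ Z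
    · left
      rw [mem_filter, mem_Icc]
      exact ⟨⟨h2.1.le, hnz⟩, h0⟩
    · right
      push Not at hnz
      have hzn : z ≤ n := by
        rw [hZ, Nat.floor_lt (by linarith)] at hnz
        exact hnz.le
      obtain ⟨k, hk2, hk, -⟩ := leh_k h2
      have hF := fam_leh n k K (by omega) hKR
      have hst : StL n k K n (2 * n) := ⟨n, h2, by have := h2.1; omega, le_rfl, hk,
        by exact_mod_cast h3, Or.inr ⟨rfl, rfl⟩⟩
      obtain ⟨d, hdn, hd1, hd2⟩ := dense hF hst hz1 hzn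
      rw [mem_biUnion]
      have hn0 : n ≠ 0 := by have := h2.1; omega
      have hdpos : 1 ≤ d := Nat.pos_of_dvd_of_pos hdn (by omega)
      refine ⟨d, ?_, ?_⟩
      · rw [hD, mem_filter, mem_Icc]
        exact ⟨⟨hdpos, by rw [hZ]; exact Nat.le_floor hd2⟩, hS n h0 d hdn, hd1,
          (card_le_card (Nat.primeFactors_mono hdn hn0)).trans h3⟩
      · rw [mem_filter]
        exact ⟨h1, ⟨h2, h2'⟩, hdn⟩
  have hterm : ∀ d ∈ D, (((Ioc x (x + y)).filter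
      (fun n => (Leh n ∧ (n : ℤ) ≡ a [ZMOD q]) ∧ d ∣ n)).card : ℝ) ≤ 513 := by
    intro d hd
    rw [hD, mem_filter, mem_Icc] at hd
    obtain ⟨⟨hd1, hdZ⟩, -, hdz, hdK⟩ := hd
    refine (multiples_class x y d q a hd1 hq h0 h1).trans ?_
    have hdR : (0 : ℝ) < d := by exact_mod_cast hd1
    have ht : (0 : ℝ) < Nat.totient d := by exact_mod_cast Nat.totient_pos.2 (by omega)
    have h1 : (d : ℝ) ≤ 2 * K * Nat.totient d := by
      have h2 := le_omega_mul_totient d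
      have h3 : (d.primeFactors.card + 1) * Nat.totient d ≤ (2 * K) * Nat.totient d :=
        Nat.mul_le_mul_right _ (by omega)
      have h4 := h2.trans h3
      exact_mod_cast h4
    rw [div_lt_iff₀ (by positivity)] at hdz
    have h5 : ((y : ℝ) / q) / (d * Nat.totient d) ≤ 512 := by
      rw [div_le_iff₀ (by positivity)]
      have h6 : z * z ≤ (d * (16 * K)) * (d * (16 * K)) :=
        mul_self_le_mul_self (by linarith) hdz.le
      rw [hzz] at h6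
      have hK0 : (0 : ℝ) < K := by linarith
      have h7 : w * (K : ℝ) ^ 3 ≤ 256 * (K : ℝ) ^ 2 * (d * d) := by
        calc w * (K : ℝ) ^ 3 ≤ (d * (16 * K)) * (d * (16 * K)) := h6
          _ = 256 * (K : ℝ) ^ 2 * (d * d) := by ring
      have h8 : (d : ℝ) * d ≤ d * (2 * K * Nat.totient d) :=
        mul_le_mul_of_nonneg_left h1 hdR.le
      have h9 : w * (K : ℝ) ^ 3 ≤ (512 * (d * Nat.totient d)) * (K : ℝ) ^ 3 := by
        calc w * (K : ℝ) ^ 3 ≤ 256 * (K : ℝ) ^ 2 * (d * d) := h7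
          _ ≤ 256 * (K : ℝ) ^ 2 * (d * (2 * K * Nat.totient d)) :=
            mul_le_mul_of_nonneg_left h8 (by positivity)
          _ = (512 * (d * Nat.totient d)) * (K : ℝ) ^ 3 := by ring
      have h10 := le_of_mul_le_mul_right h9 (by positivity)
      linarith
    linarith
  have hcard : (((Ioc x (x + y)).filter (fun n => (n ∈ S ∧ Leh n ∧ (n : ℤ) ≡ a [ZMOD q]) ∧
      n.primeFactors.card ≤ K)).card : ℝ) ≤
      (((Icc 1 Z).filter (fun n => n ∈ S)).card : ℝ) + D.card * 513 := by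
    have h1 := (card_le_card hcov).trans (card_union_le _ _)
    have h2 : ((D.biUnion (fun d => (Ioc x (x + y)).filter
        (fun n => (Leh n ∧ (n : ℤ) ≡ a [ZMOD q]) ∧ d ∣ n))).card : ℝ) ≤ D.card * 513 := by
      calc ((D.biUnion (fun d => (Ioc x (x + y)).filter
            (fun n => (Leh n ∧ (n : ℤ) ≡ a [ZMOD q]) ∧ d ∣ n))).card : ℝ) ≤
          ((∑ d ∈ D, ((Ioc x (x + y)).filter
            (fun n => (Leh n ∧ (n : ℤ) ≡ a [ZMOD q]) ∧ d ∣ n)).card : ℕ) : ℝ) := by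
            exact_mod_cast card_biUnion_le
        _ = ∑ d ∈ D, (((Ioc x (x + y)).filter
            (fun n => (Leh n ∧ (n : ℤ) ≡ a [ZMOD q]) ∧ d ∣ n)).card : ℝ) := by push_cast; rfl
        _ ≤ ∑ d ∈ D, (513 : ℝ) := Finset.sum_le_sum hterm
        _ = D.card * 513 := by rw [Finset.sum_const, nsmul_eq_mul]
    have h3 : (((Ioc x (x + y)).filter (fun n => (n ∈ S ∧ Leh n ∧ (n : ℤ) ≡ a [ZMOD q]) ∧
        n.primeFactors.card ≤ K)).card : ℝ) ≤
        (((Icc 1 Z).filter (fun n => n ∈ S)).card : ℝ) +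
        ((D.biUnion (fun d => (Ioc x (x + y)).filter
          (fun n => (Leh n ∧ (n : ℤ) ≡ a [ZMOD q]) ∧ d ∣ n))).card : ℝ) := by
      exact_mod_cast h1
    linarith
  rw [hzα]
  nlinarith

open Classical in
/-- The same with logarithms. -/
theorem thin_log (S : Set ℕ) (hS : ∀ n ∈ S, ∀ d : ℕ, d ∣ n → d ∈ S) (α B : ℝ) (hα : 0 ≤ α)
    (hα1 : α ≤ 1)
    (hB : ∀ t : ℕ, 1 ≤ t → (((Icc 1 t).filter (fun n => n ∈ S)).card : ℝ) ≤ B * (t : ℝ) ^ α)
    (q : ℕ) (a : ℤ) (hq : 1 ≤ q) (h0 : IsCoprime a (q : ℤ)) (h1 : IsCoprime (a - 1) (q : ℤ))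
    (x y : ℕ) (hxy : 1 ≤ x + y) :
    (((Ioc x (x + y)).filter (fun n => n ∈ S ∧ Leh n ∧ (n : ℤ) ≡ a [ZMOD q])).card : ℝ) ≤
      4112 * B * (((y : ℝ) / q + 1) * Real.log ((x : ℝ) + y + 1) ^ 3) ^ (α / 2) := by
  have hxR : (0 : ℝ) ≤ x := Nat.cast_nonneg x
  have hyR : (0 : ℝ) ≤ y := Nat.cast_nonneg y
  have hxyR : (1 : ℝ) ≤ (x : ℝ) + y := by exact_mod_cast hxy
  have hl2 := Real.log_two_gt_d9
  have hl2p : 0 < Real.log 2 := by linarith
  obtain ⟨K, hKd⟩ : ∃ K : ℕ, K = ⌊Real.log ((x : ℝ) + y) / Real.log 2⌋₊ + 1 := ⟨_, rfl⟩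
  have hlog0 : 0 ≤ Real.log ((x : ℝ) + y) := Real.log_nonneg (by linarith)
  have hlog1 : Real.log ((x : ℝ) + y) ≤ Real.log ((x : ℝ) + y + 1) :=
    Real.log_le_log (by linarith) (by linarith)
  have hlog2 : Real.log 2 ≤ Real.log ((x : ℝ) + y + 1) := Real.log_le_log (by norm_num) (by linarith)
  have hKle : (K : ℝ) ≤ 4 * Real.log ((x : ℝ) + y + 1) := by
    have h1 : (K : ℝ) ≤ Real.log ((x : ℝ) + y) / Real.log 2 + 1 := by
      rw [hKd]
      push_cast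
      have := Nat.floor_le (div_nonneg hlog0 hl2p.le)
      linarith
    have h2 : Real.log ((x : ℝ) + y) / Real.log 2 ≤ 3 / 2 * Real.log ((x : ℝ) + y + 1) := by
      rw [div_le_iff₀ hl2p]
      nlinarith
    linarith
  have hB0 : 0 ≤ B := by
    have h2 := hB 1 le_rfl
    rw [Nat.cast_one, Real.one_rpow, mul_one] at h2
    exact le_trans (Nat.cast_nonneg _) h2
  have key := thin S hS α B hα hB q a hq h0 h1 x y K (by rw [hKd]; omega)
  have hsub : (Ioc x (x + y)).filter (fun n => n ∈ S ∧ Leh n ∧ (n : ℤ) ≡ a [ZMOD q]) ⊆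
      (Ioc x (x + y)).filter (fun n => (n ∈ S ∧ Leh n ∧ (n : ℤ) ≡ a [ZMOD q]) ∧
        n.primeFactors.card ≤ K) := by
    intro n hn
    rw [mem_filter] at hn ⊢
    refine ⟨hn.1, hn.2, ?_⟩
    have hn1 : 1 ≤ n := hn.2.2.1.1.le
    have h2 := Tot.card_le n hn1
    have hnx : (n : ℝ) ≤ (x : ℝ) + y := by exact_mod_cast (mem_Ioc.1 hn.1).2
    have h3 : Real.log n ≤ Real.log ((x : ℝ) + y) :=
      Real.log_le_log (by exact_mod_cast hn1) hnx
    rw [hKd]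
    have h4 : (n.primeFactors.card : ℝ) ≤ Real.log ((x : ℝ) + y) / Real.log 2 := by
      rw [le_div_iff₀ hl2p]
      linarith
    have h5 := Nat.le_floor h4
    omega
  have hle : (((Ioc x (x + y)).filter (fun n => n ∈ S ∧ Leh n ∧ (n : ℤ) ≡ a [ZMOD q])).card : ℝ) ≤
      514 * B * (((y : ℝ) / q + 1) * (K : ℝ) ^ 3) ^ (α / 2) := by
    refine le_trans ?_ key
    exact_mod_cast card_le_card hsub
  refine hle.trans ?_
  have hL : 0 ≤ Real.log ((x : ℝ) + y + 1) := by linarith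
  have hyq : (0 : ℝ) ≤ (y : ℝ) / q + 1 := by positivity
  have h6 : ((y : ℝ) / q + 1) * (K : ℝ) ^ 3 ≤
      64 * (((y : ℝ) / q + 1) * Real.log ((x : ℝ) + y + 1) ^ 3) := by
    have h7 : (K : ℝ) ^ 3 ≤ (4 * Real.log ((x : ℝ) + y + 1)) ^ 3 :=
      pow_le_pow_left₀ (Nat.cast_nonneg _) hKle 3
    calc ((y : ℝ) / q + 1) * (K : ℝ) ^ 3 ≤
        ((y : ℝ) / q + 1) * (4 * Real.log ((x : ℝ) + y + 1)) ^ 3 :=
          mul_le_mul_of_nonneg_left h7 hyq
      _ = 64 * (((y : ℝ) / q + 1) * Real.log ((x : ℝ) + y + 1) ^ 3) := by ring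
  have h8 : (((y : ℝ) / q + 1) * (K : ℝ) ^ 3) ^ (α / 2) ≤
      8 * (((y : ℝ) / q + 1) * Real.log ((x : ℝ) + y + 1) ^ 3) ^ (α / 2) := by
    refine (Real.rpow_le_rpow (by positivity) h6 (by linarith)).trans ?_
    rw [Real.mul_rpow (by norm_num) (by positivity)]
    refine mul_le_mul_of_nonneg_right ?_ (by positivity)
    calc (64 : ℝ) ^ (α / 2) ≤ (64 : ℝ) ^ (1 / 2 : ℝ) :=
          Real.rpow_le_rpow_of_exponent_le (by norm_num) (by linarith)
      _ = 8 := by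
        rw [← Real.sqrt_eq_rpow, show (64 : ℝ) = 8 ^ 2 by norm_num]
        exact Real.sqrt_sq (by norm_num)
  calc 514 * B * (((y : ℝ) / q + 1) * (K : ℝ) ^ 3) ^ (α / 2) ≤
      514 * B * (8 * (((y : ℝ) / q + 1) * Real.log ((x : ℝ) + y + 1) ^ 3) ^ (α / 2)) :=
        mul_le_mul_of_nonneg_left h8 (by positivity)
    _ = _ := by ring

end Pool.Agent.L0h94.LT
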